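import Mathlib
import Pool.Agent.Helper694.CS.J_hnnS
import Pool.Agent.Helper270.HNN

set_option autoImplicit false

/-! Separability of infinite cyclic subgroups in HNN extensions of finite groups. -/

namespace Pool.Agent.V5helper35.VRC

open HNNExtension Pool.CS

section Ext

variable {B : Type} [Group B] {C D : Subgroup B} {φ : C ≃* D}
variable {X : Type} [MulAction (HNNExtension B C D φ) X]

/-- A partial action on a finite set extends to an action, if the base group acts freely. -/
theorem exists_perm [Finite B] (S : Set X) (hS : S.Finite)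
    (hB : ∀ (b : B), ∀ s ∈ S, (of b : HNNExtension B C D φ) • s ∈ S)
    (hfree : ∀ (b : B) (x : X), (of b : HNNExtension B C D φ) • x = x → b = 1) :
    ∃ ρ : HNNExtension B C D φ →* Equiv.Perm S,
      (∀ (b : B) (s : S), (ρ (of b) s : X) = (of b : HNNExtension B C D φ) • (s : X)) ∧
      (∀ s : S, (t : HNNExtension B C D φ) • (s : X) ∈ S →
        (ρ t s : X) = (t : HNNExtension B C D φ) • (s : X)) := by
  classical
  have : Finite S := hS
  -- the action of the base group
  let β : B →* Equiv.Perm S :=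
    { toFun := fun b =>
        { toFun := fun s => ⟨(of b : HNNExtension B C D φ) • (s : X), hB b s s.2⟩
          invFun := fun s => ⟨(of b⁻¹ : HNNExtension B C D φ) • (s : X), hB b⁻¹ s s.2⟩
          left_inv := fun s => by
            apply Subtype.ext
            change (of b⁻¹ : HNNExtension B C D φ) • ((of b : HNNExtension B C D φ) • (s : X)) = s
            rw [← mul_smul, ← map_mul, inv_mul_cancel, map_one, one_smul]
          right_inv := fun s => by
            apply Subtype.ext
            change (of b : HNNExtension B C D φ) • ((of b⁻¹ : HNNExtension B C D φ) • (s : X)) = s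
            rw [← mul_smul, ← map_mul, mul_inv_cancel, map_one, one_smul] }
      map_one' := by
        ext s
        change (of (1 : B) : HNNExtension B C D φ) • (s : X) = s
        rw [map_one, one_smul]
      map_mul' := fun a b => by
        ext s
        change (of (a * b) : HNNExtension B C D φ) • (s : X) =
          (of a : HNNExtension B C D φ) • ((of b : HNNExtension B C D φ) • (s : X))
        rw [map_mul, mul_smul] }
  have hβ : ∀ b (s : S), (β b s : X) = (of b : HNNExtension B C D φ) • (s : X) := fun _ _ => rfl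
  have hβfree : ∀ b (s : S), β b s = s → b = 1 := by
    intro b s h
    exact hfree b s (by rw [← hβ, h])
  -- complement of the domain and of the range of the partial bijection
  let Z : Type := {s : S // (t : HNNExtension B C D φ) • (s : X) ∉ S}
  let Z' : Type := {s : S // (t : HNNExtension B C D φ)⁻¹ • (s : X) ∉ S}
  have hcard : Nat.card Z = Nat.card Z' := by
    have e : {s : S // (t : HNNExtension B C D φ) • (s : X) ∈ S} ≃
        {s : S // (t : HNNExtension B C D φ)⁻¹ • (s : X) ∈ S} :=
      { toFun := fun s => ⟨⟨(t : HNNExtension B C D φ) • (s.1 : X), s.2⟩, by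
          change (t : HNNExtension B C D φ)⁻¹ • ((t : HNNExtension B C D φ) • (s.1 : X)) ∈ S
          rw [inv_smul_smul]; exact s.1.2⟩
        invFun := fun s => ⟨⟨(t : HNNExtension B C D φ)⁻¹ • (s.1 : X), s.2⟩, by
          change (t : HNNExtension B C D φ) • ((t : HNNExtension B C D φ)⁻¹ • (s.1 : X)) ∈ S
          rw [smul_inv_smul]; exact s.1.2⟩
        left_inv := fun s => by
          apply Subtype.ext; apply Subtype.ext
          exact inv_smul_smul _ _
        right_inv := fun s => by
          apply Subtype.ext; apply Subtype.ext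
          exact smul_inv_smul _ _ }
    have h1 := Nat.card_congr
      (Equiv.sumCompl (fun s : S => (t : HNNExtension B C D φ) • (s : X) ∈ S))
    have h2 := Nat.card_congr
      (Equiv.sumCompl (fun s : S => (t : HNNExtension B C D φ)⁻¹ • (s : X) ∈ S))
    rw [Nat.card_sum] at h1 h2
    have h3 := Nat.card_congr e
    change Nat.card {s : S // ¬ (t : HNNExtension B C D φ) • (s : X) ∈ S} =
      Nat.card {s : S // ¬ (t : HNNExtension B C D φ)⁻¹ • (s : X) ∈ S}
    omega
  obtain ⟨e⟩ : Nonempty (Z ≃ Z') := (Finite.card_eq).1 hcard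
  have hC1 : ∀ (c : C) (s : S), (t : HNNExtension B C D φ) • (β c s : X) =
      (of (φ c : B) : HNNExtension B C D φ) • ((t : HNNExtension B C D φ) • (s : X)) := by
    intro c s
    rw [hβ, ← mul_smul, ← mul_smul, t_mul_of]
  have hD1 : ∀ (c : C) (s : S), (t : HNNExtension B C D φ)⁻¹ • (β (φ c) s : X) =
      (of (c : B) : HNNExtension B C D φ) • ((t : HNNExtension B C D φ)⁻¹ • (s : X)) := by
    intro c s
    rw [hβ, inv_smul_eq_iff, ← mul_smul, ← mul_smul, equiv_eq_conj]
  have hBinv : ∀ (b : B) (x : X), (of b : HNNExtension B C D φ) • x ∈ S ↔ x ∈ S := by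
    intro b x
    constructor
    · intro h
      have := hB b⁻¹ _ h
      rwa [← mul_smul, ← map_mul, inv_mul_cancel, map_one, one_smul] at this
    · exact hB b x
  have hZ : ∀ (c : C) (s : S), (t : HNNExtension B C D φ) • (s : X) ∉ S →
      (t : HNNExtension B C D φ) • (β c s : X) ∉ S := by
    intro c s h
    rw [hC1, hBinv]; exact h
  have hZ' : ∀ (c : C) (s : S), (t : HNNExtension B C D φ)⁻¹ • (s : X) ∉ S →
      (t : HNNExtension B C D φ)⁻¹ • (β (φ c) s : X) ∉ S := by
    intro c s h
    rw [hD1, hBinv]; exact h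
  -- the two actions of `C` on `Z`
  let actZ : C →* Equiv.Perm Z :=
    { toFun := fun c =>
        { toFun := fun s => ⟨β c s.1, hZ c s.1 s.2⟩
          invFun := fun s => ⟨β (c⁻¹ : C) s.1, hZ c⁻¹ s.1 s.2⟩
          left_inv := fun s => by
            apply Subtype.ext
            change β (c⁻¹ : C) (β c s.1) = s.1
            rw [← Equiv.Perm.mul_apply, ← map_mul]; simp
          right_inv := fun s => by
            apply Subtype.ext
            change β c (β (c⁻¹ : C) s.1) = s.1
            rw [← Equiv.Perm.mul_apply, ← map_mul]; simp }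
      map_one' := by
        ext s
        change ((β ((1 : C) : B)) s.1 : X) = s.1
        simp
      map_mul' := fun a b => by
        ext s
        change ((β ((a * b : C) : B)) s.1 : X) = β a (β b s.1)
        rw [Subgroup.coe_mul, map_mul]; rfl }
  let actZ' : C →* Equiv.Perm Z' :=
    { toFun := fun c =>
        { toFun := fun s => ⟨β (φ c) s.1, hZ' c s.1 s.2⟩
          invFun := fun s => ⟨β (φ c⁻¹) s.1, hZ' c⁻¹ s.1 s.2⟩
          left_inv := fun s => by
            apply Subtype.ext
            change β (φ c⁻¹) (β (φ c) s.1) = s.1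
            rw [← Equiv.Perm.mul_apply, ← map_mul]; simp
          right_inv := fun s => by
            apply Subtype.ext
            change β (φ c) (β (φ c⁻¹) s.1) = s.1
            rw [← Equiv.Perm.mul_apply, ← map_mul]; simp }
      map_one' := by
        ext s
        change ((β (φ (1 : C) : B)) s.1 : X) = s.1
        simp
      map_mul' := fun a b => by
        ext s
        change ((β (φ (a * b : C) : B)) s.1 : X) = β (φ a) (β (φ b) s.1)
        rw [map_mul, Subgroup.coe_mul, map_mul]; rfl }
  let actZ2 : C →* Equiv.Perm Z := (e.symm.permCongrHom).toMonoidHom.comp actZ'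
  have hact2 : ∀ c z, actZ2 c z = e.symm (actZ' c (e z)) := fun _ _ => rfl
  obtain ⟨τ, hτ⟩ := N_hnnS.free_iso actZ actZ2
    (by
      intro c z h
      have h1 : β c z.1 = z.1 := congrArg Subtype.val h
      exact Subtype.ext (hβfree _ _ h1))
    (by
      intro c z h
      rw [hact2, Equiv.symm_apply_eq] at h
      have h1 : β (φ c) (e z).1 = (e z).1 := congrArg Subtype.val h
      have h2 : φ c = 1 := Subtype.ext (hβfree _ _ h1)
      exact (map_eq_one_iff φ φ.injective).mp h2)
  -- the permutation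
  let f : S → S := fun s => if h : (t : HNNExtension B C D φ) • (s : X) ∈ S
    then ⟨(t : HNNExtension B C D φ) • (s : X), h⟩ else (e (τ ⟨s, h⟩)).1
  have hf1 : ∀ s : S, (t : HNNExtension B C D φ) • (s : X) ∈ S →
      (f s : X) = (t : HNNExtension B C D φ) • (s : X) := by
    intro s h
    simp only [f, dif_pos h]
  have hf2 : ∀ (s : S) (h : (t : HNNExtension B C D φ) • (s : X) ∉ S),
      f s = (e (τ ⟨s, h⟩)).1 := by
    intro s h
    simp only [f, dif_neg h]
  have hfinj : Function.Injective f := by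
    intro s s' h
    by_cases h1 : (t : HNNExtension B C D φ) • (s : X) ∈ S
    · by_cases h2 : (t : HNNExtension B C D φ) • (s' : X) ∈ S
      · have h3 : (f s : X) = f s' := by rw [h]
        rw [hf1 s h1, hf1 s' h2] at h3
        exact Subtype.ext (MulAction.injective _ h3)
      · exfalso
        have h3 := (e (τ ⟨s', h2⟩)).2
        apply h3
        rw [← hf2 s' h2, ← h, hf1 s h1, inv_smul_smul]
        exact s.2
    · by_cases h2 : (t : HNNExtension B C D φ) • (s' : X) ∈ S
      · exfalso
        have h3 := (e (τ ⟨s, h1⟩)).2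
        apply h3
        rw [← hf2 s h1, h, hf1 s' h2, inv_smul_smul]
        exact s'.2
      · rw [hf2 s h1, hf2 s' h2] at h
        have h3 := e.injective (Subtype.ext h)
        exact congrArg Subtype.val (τ.injective h3)
  let T : Equiv.Perm S := Equiv.ofBijective f (Finite.injective_iff_bijective.mp hfinj)
  have hT : ∀ c : C, T * β c = β (φ c) * T := by
    intro c
    ext s
    change (f (β c s) : X) = β (φ c) (f s)
    by_cases h : (t : HNNExtension B C D φ) • (s : X) ∈ S
    · have h' : (t : HNNExtension B C D φ) • (β c s : X) ∈ S := by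
        rw [hC1, hBinv]; exact h
      rw [hf1 _ h', hC1, hβ, hf1 s h]
    · have h' := hZ c s h
      rw [hf2 _ h', hf2 s h]
      have h1 := hτ c ⟨s, h⟩
      have h2 : (⟨β c s, h'⟩ : Z) = actZ c ⟨s, h⟩ := rfl
      rw [h2, h1, hact2, Equiv.apply_symm_apply]
      rfl
  refine ⟨lift β T hT, ?_, ?_⟩
  · intro b s
    rw [lift_of]
    exact hβ b s
  · intro s h
    rw [lift_t]
    exact hf1 s h

/-- Following a path in a set with an action. -/
theorem follow (g : HNNExtension B C D φ) : ∀ x : X, ∃ F : Set X, F.Finite ∧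
    ∀ (S : Set X) (ρ : HNNExtension B C D φ →* Equiv.Perm S), F ⊆ S →
      (∀ (b : B) (s : S), (ρ (of b) s : X) = (of b : HNNExtension B C D φ) • (s : X)) →
      (∀ s : S, (t : HNNExtension B C D φ) • (s : X) ∈ S →
        (ρ t s : X) = (t : HNNExtension B C D φ) • (s : X)) →
      ∀ hx : x ∈ S, (ρ g ⟨x, hx⟩ : X) = g • x := by
  induction g using HNNExtension.induction_on with
  | of b =>
    intro x
    exact ⟨∅, Set.finite_empty, fun S ρ _ h1 _ hx => h1 b ⟨x, hx⟩⟩
  | t =>
    intro x
    exact ⟨{(t : HNNExtension B C D φ) • x}, Set.finite_singleton _,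
      fun S ρ hS _ h2 hx => h2 ⟨x, hx⟩ (hS rfl)⟩
  | mul g1 g2 ih1 ih2 =>
    intro x
    obtain ⟨F2, hF2, h2⟩ := ih2 x
    obtain ⟨F1, hF1, h1⟩ := ih1 (g2 • x)
    refine ⟨F1 ∪ F2 ∪ {g2 • x}, (hF1.union hF2).union (Set.finite_singleton _), ?_⟩
    intro S ρ hS hb ht hx
    have e2 := h2 S ρ (fun y hy => hS (Or.inl (Or.inr hy))) hb ht hx
    have hx2 : g2 • x ∈ S := hS (Or.inr rfl)
    have e1 := h1 S ρ (fun y hy => hS (Or.inl (Or.inl hy))) hb ht hx2
    rw [map_mul, Equiv.Perm.mul_apply, mul_smul, ← e1]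
    congr 2
    exact Subtype.ext e2
  | inv g ih =>
    intro x
    obtain ⟨F, hF, h⟩ := ih (g⁻¹ • x)
    refine ⟨F ∪ {g⁻¹ • x}, hF.union (Set.finite_singleton _), ?_⟩
    intro S ρ hS hb ht hx
    have hx2 : g⁻¹ • x ∈ S := hS (Or.inr rfl)
    have e := h S ρ (fun y hy => hS (Or.inl hy)) hb ht hx2
    rw [smul_inv_smul] at e
    have e2 : ρ g ⟨g⁻¹ • x, hx2⟩ = ⟨x, hx⟩ := Subtype.ext e
    rw [map_inv, ← e2]
    simp

end Ext

section Sep

variable {B : Type} [Group B] [Finite B] {C D : Subgroup B} {φ : C ≃* D}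

/-- Infinite cyclic subgroups are separable in HNN extensions of finite groups. -/
theorem sep_of_infinite (z : HNNExtension B C D φ) (hz : ¬ IsOfFinOrder z) :
    Sep (HNNExtension B C D φ) z := by
  classical
  intro h hh
  let H : Subgroup (HNNExtension B C D φ) := Subgroup.zpowers z
  let X := HNNExtension B C D φ ⧸ H
  have hfree : ∀ (b : B) (x : X), (of b : HNNExtension B C D φ) • x = x → b = 1 := by
    intro b x hx
    obtain ⟨y, rfl⟩ := QuotientGroup.mk_surjective x
    have h1 : ((of b * y : HNNExtension B C D φ) : X) = (y : X) := hx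
    rw [eq_comm, QuotientGroup.eq] at h1
    obtain ⟨k, hk⟩ := h1
    have hk' : z ^ k = y⁻¹ * (of b * y) := hk
    have hb : IsOfFinOrder (of b : HNNExtension B C D φ) :=
      (of : B →* HNNExtension B C D φ).isOfFinOrder (isOfFinOrder_of_finite b)
    have h2 : IsOfFinOrder (z ^ k) := by
      rw [hk', ← mul_assoc]
      have := (MulAut.conj y⁻¹).toMonoidHom.isOfFinOrder hb
      simpa [MulAut.conj_apply] using this
    have h3 : k = 0 := by
      by_contra hne
      apply hz
      rw [isOfFinOrder_iff_zpow_eq_one] at h2 ⊢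
      obtain ⟨n, hn, h5⟩ := h2
      exact ⟨k * n, mul_ne_zero hne hn, by rw [zpow_mul]; exact h5⟩
    rw [h3, zpow_zero] at hk'
    have h4 : (of b : HNNExtension B C D φ) = 1 := by
      have : of b * y = (y : HNNExtension B C D φ) := by
        rw [eq_comm, inv_mul_eq_one] at hk'
        exact hk'.symm
      exact mul_eq_right.mp this
    exact of_injective (φ := φ) (by rw [h4, map_one])
  let x0 : X := ((1 : HNNExtension B C D φ) : X)
  obtain ⟨F1, hF1, h1⟩ := follow z x0
  obtain ⟨F2, hF2, h2⟩ := follow h x0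
  let F : Set X := F1 ∪ F2 ∪ {x0}
  have hF : F.Finite := (hF1.union hF2).union (Set.finite_singleton _)
  let S : Set X := ⋃ b : B, (fun x => (of b : HNNExtension B C D φ) • x) '' F
  have hS : S.Finite := Set.finite_iUnion fun b => hF.image _
  have hFS : F ⊆ S := fun x hx => Set.mem_iUnion.mpr ⟨1, x, hx, by simp⟩
  have hB : ∀ (b : B), ∀ s ∈ S, (of b : HNNExtension B C D φ) • s ∈ S := by
    intro b s hs
    obtain ⟨b', x, hx, rfl⟩ := Set.mem_iUnion.mp hs
    exact Set.mem_iUnion.mpr ⟨b * b', x, hx, by simp [mul_smul]⟩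
  obtain ⟨ρ, hρ1, hρ2⟩ := exists_perm S hS hB hfree
  have hx0 : x0 ∈ S := hFS (Or.inr rfl)
  have e1 := h1 S ρ (fun y hy => hFS (Or.inl (Or.inl hy))) hρ1 hρ2 hx0
  have e2 := h2 S ρ (fun y hy => hFS (Or.inl (Or.inr hy))) hρ1 hρ2 hx0
  have : Finite S := hS
  refine ⟨⟨Equiv.Perm S, ρ⟩, ?_⟩
  rintro ⟨k, hk⟩
  have hk' : ρ z ^ k = ρ h := hk
  have hfix : ρ z ⟨x0, hx0⟩ = ⟨x0, hx0⟩ := by
    apply Subtype.ext
    rw [e1]
    change ((z * 1 : HNNExtension B C D φ) : X) = ((1 : HNNExtension B C D φ) : X)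
    rw [eq_comm, QuotientGroup.eq]
    simp [H]
  have hfix2 : (ρ z ^ k) ⟨x0, hx0⟩ = ⟨x0, hx0⟩ := by
    have : ρ z ∈ MulAction.stabilizer (Equiv.Perm S) (⟨x0, hx0⟩ : S) := hfix
    exact zpow_mem this k
  rw [hk'] at hfix2
  have h3 := congrArg Subtype.val hfix2
  rw [e2] at h3
  have h4 : ((h * 1 : HNNExtension B C D φ) : X) = ((1 : HNNExtension B C D φ) : X) := h3
  rw [eq_comm, QuotientGroup.eq] at h4
  apply hh
  simpa [H] using h4

end Sep

section General

variable {P : Type} [Group P]

/-- A common refinement of finitely many finite quotients. -/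
def infQ (q1 q2 : FQ P) : FQ P := ⟨q1.Q × q2.Q, q1.φ.prod q2.φ⟩

/-- The order of an element of infinite order can be made divisible by `N` in finite quotients if
the subgroups generated by its powers are separable. -/
theorem exists_dvd_order (z : P) (hz : ¬ IsOfFinOrder z)
    (hs : ∀ N : ℕ, 0 < N → Sep P (z ^ N)) (N : ℕ) (hN : 0 < N) :
    ∃ q : FQ P, N ∣ orderOf (q.φ z) := by
  classical
  -- a quotient separating all `z ^ j`, `0 < j < N` from `⟨z ^ N⟩`
  have key : ∀ m : ℕ, ∃ q : FQ P, ∀ j : ℕ, 0 < j → j < N → j < m →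
      q.φ (z ^ j) ∉ Subgroup.zpowers (q.φ (z ^ N)) := by
    intro m
    induction m with
    | zero => exact ⟨⟨Unit, 1⟩, fun j _ _ h => absurd h (Nat.not_lt_zero _)⟩
    | succ m ih =>
      obtain ⟨q, hq⟩ := ih
      by_cases hm : 0 < m ∧ m < N
      · have h1 : z ^ m ∉ Subgroup.zpowers (z ^ N) := by
          rintro ⟨k, hk⟩
          have hk' : (z ^ N) ^ k = z ^ m := hk
          rw [← zpow_natCast, ← zpow_natCast, ← zpow_mul] at hk'
          have h2 := injective_zpow_iff_not_isOfFinOrder.2 hz hk'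
          have h3 : (N : ℤ) ∣ (m : ℤ) := ⟨k, h2.symm⟩
          have h4 := Nat.le_of_dvd hm.1 (Int.natCast_dvd_natCast.mp h3)
          omega
        obtain ⟨q', hq'⟩ := hs N hN _ h1
        refine ⟨infQ q q', ?_⟩
        intro j hj1 hj2 hj3
        rintro ⟨k, hk⟩
        have hk' : (q.φ (z ^ N), q'.φ (z ^ N)) ^ k = (q.φ (z ^ j), q'.φ (z ^ j)) := hk
        rw [Prod.pow_mk] at hk'
        have ha := congrArg Prod.fst hk'
        have hb := congrArg Prod.snd hk'
        rcases Nat.lt_or_ge j m with hjm | hjm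
        · exact hq j hj1 hj2 hjm ⟨k, ha⟩
        · have : j = m := by omega
          subst this
          exact hq' ⟨k, hb⟩
      · refine ⟨q, fun j hj1 hj2 hj3 => hq j hj1 hj2 ?_⟩
        by_contra hcon
        have : j = m := by omega
        subst this
        exact hm ⟨hj1, hj2⟩
  obtain ⟨q, hq⟩ := key N
  refine ⟨q, ?_⟩
  set M := orderOf (q.φ z) with hM
  have hMpos : 0 < M := orderOf_pos _
  by_contra hcon
  let d := Nat.gcd N M
  have hd1 : d ∣ N := Nat.gcd_dvd_left _ _
  have hd0 : 0 < d := Nat.gcd_pos_of_pos_left _ hN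
  have hdN : d < N := by
    rcases Nat.lt_or_ge d N with h | h
    · exact h
    · exfalso
      have : d = N := le_antisymm (Nat.le_of_dvd hN hd1) h
      exact hcon (this ▸ Nat.gcd_dvd_right N M)
  apply hq d hd0 hdN hdN
  refine ⟨Nat.gcdA N M, ?_⟩
  change (q.φ (z ^ N)) ^ (Nat.gcdA N M) = q.φ (z ^ d)
  have h1 : (d : ℤ) = N * Nat.gcdA N M + M * Nat.gcdB N M := Nat.gcd_eq_gcd_ab N M
  rw [map_pow, map_pow, ← zpow_natCast, ← zpow_mul, ← zpow_natCast (q.φ z) d, h1, zpow_add,
    zpow_mul (q.φ z) (M : ℤ), zpow_natCast (q.φ z) M, hM, pow_orderOf_eq_one, one_zpow, mul_one]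

/-- Lifting of separability of a cyclic subgroup along a homomorphism. -/
theorem sep_lift {Γ : Type} [Group Γ] (π : P →* Γ) (g : P) (rf : RF P) (hs : Sep Γ (π g))
    (hp : ∀ N : ℕ, 0 < N → ∃ q : FQ Γ, N ∣ orderOf (q.φ (π g))) : Sep P g := by
  classical
  intro h hh
  by_cases h1 : π h ∈ Subgroup.zpowers (π g)
  · obtain ⟨k, hk⟩ := h1
    have hk' : (π g) ^ k = π h := hk
    have hx : h * (g ^ k)⁻¹ ≠ 1 := by
      intro hx
      apply hh
      exact ⟨k, (mul_inv_eq_one.mp hx).symm⟩
    obtain ⟨q, hq⟩ := rf _ hx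
    obtain ⟨q', hq'⟩ := hp (Nat.card q.Q) Nat.card_pos
    refine ⟨⟨q.Q × q'.Q, q.φ.prod (q'.φ.comp π)⟩, ?_⟩
    rintro ⟨j, hj⟩
    have hj' : (q.φ g, q'.φ (π g)) ^ j = (q.φ h, q'.φ (π h)) := hj
    rw [Prod.pow_mk] at hj'
    have ha : q.φ g ^ j = q.φ h := congrArg Prod.fst hj'
    have hb : q'.φ (π g) ^ j = q'.φ (π h) := congrArg Prod.snd hj'
    have hc : q'.φ (π g) ^ (j - k) = 1 := by
      rw [zpow_sub, hb, ← map_zpow, hk', mul_inv_cancel]
    have hd : ((Nat.card q.Q : ℕ) : ℤ) ∣ j - k :=
      (Int.natCast_dvd_natCast.mpr hq').trans (orderOf_dvd_iff_zpow_eq_one.mpr hc)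
    obtain ⟨i, hi⟩ := hd
    have he : q.φ g ^ (j - k) = 1 := by
      rw [hi, zpow_mul, zpow_natCast, pow_card_eq_one', one_zpow]
    apply hq
    rw [map_mul, map_inv, map_zpow, ← ha, ← zpow_neg, ← zpow_add, ← sub_eq_add_neg, he]
  · obtain ⟨q, hq⟩ := hs _ h1
    exact ⟨⟨q.Q, q.φ.comp π⟩, hq⟩

end General

end Pool.Agent.V5helper35.VRC
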