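import Mathlib
import Pool.Agent.V5helper35.VRC.Perm
import Pool.Agent.Helper694.CS.J_hnn_rf

set_option autoImplicit false

/-! The group `R² ⋊ ℤ/2` and an HNN extension of it. -/

namespace Pool.Agent.V5helper35.VRC

open HNNExtension Pool.CS

/-- The group `R² ⋊ ℤ/2`, the factor `ℤ/2` exchanging the coordinates. -/
@[ext] structure W (R : Type) where
  x : R
  y : R
  s : Bool

namespace W

variable {R S : Type}

instance [Finite R] : Finite (W R) :=
  Finite.of_injective (fun w : W R => (w.x, w.y, w.s)) (by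
    intro a b h
    simp only [Prod.mk.injEq] at h
    exact W.ext h.1 h.2.1 h.2.2)

variable [CommRing R] [CommRing S]

instance : Mul (W R) :=
  ⟨fun p q => ⟨p.x + (bif p.s then q.y else q.x), p.y + (bif p.s then q.x else q.y), xor p.s q.s⟩⟩

instance : One (W R) := ⟨⟨0, 0, false⟩⟩

instance : Inv (W R) :=
  ⟨fun p => ⟨-(bif p.s then p.y else p.x), -(bif p.s then p.x else p.y), p.s⟩⟩

theorem mul_def (p q : W R) : p * q =
    ⟨p.x + (bif p.s then q.y else q.x), p.y + (bif p.s then q.x else q.y), xor p.s q.s⟩ := rfl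

theorem one_def : (1 : W R) = ⟨0, 0, false⟩ := rfl

theorem inv_def (p : W R) : p⁻¹ =
    ⟨-(bif p.s then p.y else p.x), -(bif p.s then p.x else p.y), p.s⟩ := rfl

instance : Group (W R) :=
  Group.ofLeftAxioms
    (by
      rintro ⟨a, b, s⟩ ⟨c, d, s'⟩ ⟨e, f, s''⟩
      cases s <;> cases s' <;> cases s'' <;> simp [mul_def, add_assoc])
    (by
      rintro ⟨a, b, s⟩
      cases s <;> simp [mul_def, one_def])
    (by
      rintro ⟨a, b, s⟩
      cases s <;> simp [mul_def, one_def, inv_def])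

/-- Translations. -/
def tr (a b : R) : W R := ⟨a, b, false⟩

theorem tr_mul (a b c d : R) : tr a b * tr c d = tr (a + c) (b + d) := rfl

theorem tr_zero : tr (0 : R) 0 = 1 := rfl

theorem tr_pow (a b : R) (n : ℕ) : tr a b ^ n = tr (n * a) (n * b) := by
  induction n with
  | zero => rw [pow_zero, ← tr_zero]; simp
  | succ n ih =>
    rw [pow_succ, ih, tr_mul]
    push_cast
    congr 1 <;> ring

theorem tr_inv (a b : R) : (tr a b)⁻¹ = tr (-a) (-b) := rfl

theorem tr_zpow (a b : R) (n : ℤ) : tr a b ^ n = tr (n * a) (n * b) := by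
  cases n with
  | ofNat n => rw [Int.ofNat_eq_natCast, zpow_natCast, tr_pow]; simp
  | negSucc n =>
    rw [zpow_negSucc, tr_pow, tr_inv]
    push_cast
    congr 1 <;> ring

omit [CommRing R] in
theorem tr_inj {a b c d : R} : tr a b = tr c d ↔ a = c ∧ b = d := by
  constructor
  · intro h
    exact ⟨congrArg W.x h, congrArg W.y h⟩
  · rintro ⟨rfl, rfl⟩; rfl

/-- Functoriality. -/
def red (f : R →+* S) : W R →* W S where
  toFun w := ⟨f w.x, f w.y, w.s⟩
  map_one' := by simp [one_def]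
  map_mul' p q := by
    rcases p with ⟨a, b, s⟩
    cases s <;> simp [mul_def]

theorem red_apply (f : R →+* S) (w : W R) : red f w = ⟨f w.x, f w.y, w.s⟩ := rfl

theorem red_tr (f : R →+* S) (a b : R) : red f (tr a b) = tr (f a) (f b) := rfl

/-- The generator of the first associated subgroup. -/
def uu : W R := tr 0 1

/-- The generator of the second associated subgroup. -/
def vv : W R := tr 3 1

theorem red_uu (f : R →+* S) : red f uu = uu := by
  rw [uu, red_tr, map_zero, map_one]; rfl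

theorem red_vv (f : R →+* S) : red f vv = vv := by
  rw [vv, red_tr, map_one, map_ofNat]; rfl

theorem uu_pow_eq_one (n : ℕ) : (uu : W R) ^ n = 1 ↔ (n : R) = 0 := by
  rw [uu, tr_pow, ← tr_zero, tr_inj]
  simp

theorem vv_pow_eq_one (n : ℕ) : (vv : W R) ^ n = 1 ↔ (n : R) = 0 := by
  rw [vv, tr_pow, ← tr_zero, tr_inj]
  constructor
  · rintro ⟨-, h⟩; simpa using h
  · intro h; simp [h]

theorem order_eq : orderOf (uu : W R) = orderOf (vv : W R) := by
  rw [orderOf_eq_orderOf_iff]
  intro n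
  rw [uu_pow_eq_one, vv_pow_eq_one]

end W

open W

section HNN

variable (R : Type) [CommRing R]

/-- The isomorphism of the associated subgroups. -/
noncomputable def phi : Subgroup.zpowers (uu : W R) ≃* Subgroup.zpowers (vv : W R) :=
  mulEquivOfOrderOfEq (g := ⟨uu, Subgroup.mem_zpowers _⟩) (g' := ⟨vv, Subgroup.mem_zpowers _⟩)
    (by
      rintro ⟨x, k, rfl⟩
      exact ⟨k, rfl⟩)
    (by
      rintro ⟨x, k, rfl⟩
      exact ⟨k, rfl⟩)
    (by
      rw [← Subgroup.orderOf_coe, ← Subgroup.orderOf_coe]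
      exact order_eq)

theorem phi_uu : phi R ⟨uu, Subgroup.mem_zpowers _⟩ = ⟨vv, Subgroup.mem_zpowers _⟩ :=
  mulEquivOfOrderOfEq_apply_gen _ _ _

/-- The HNN extension `⟨W R, t | t u t⁻¹ = v⟩`. -/
abbrev E : Type :=
  HNNExtension (W R) (Subgroup.zpowers (uu : W R)) (Subgroup.zpowers (vv : W R)) (phi R)

variable {R}

theorem t_uu_zpow (k : ℤ) : (t : E R) * of ((uu : W R) ^ k) = of ((vv : W R) ^ k) * t := by
  have h := t_mul_of (φ := phi R) (⟨uu, Subgroup.mem_zpowers _⟩ ^ k)
  rw [map_zpow, phi_uu] at h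
  exact h

variable {S : Type} [CommRing S]

/-- Functoriality of the HNN extension. -/
noncomputable def redE (f : R →+* S) : E R →* E S :=
  lift (of.comp (red f)) t (by
    rintro ⟨a, k, rfl⟩
    have h1 : (phi R ⟨(fun x => (uu : W R) ^ x) k, ⟨k, rfl⟩⟩ : W R) = vv ^ k := by
      have : (⟨(fun x => (uu : W R) ^ x) k, ⟨k, rfl⟩⟩ : Subgroup.zpowers (uu : W R)) =
        ⟨uu, Subgroup.mem_zpowers _⟩ ^ k := rfl
      rw [this, map_zpow, phi_uu]; rfl
    rw [h1]
    change t * of (red f (uu ^ k)) = of (red f (vv ^ k)) * t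
    rw [map_zpow (red f), map_zpow (red f), red_uu, red_vv, t_uu_zpow])

@[simp] theorem redE_of (f : R →+* S) (w : W R) : redE f (of w) = of (red f w) := lift_of _ _ _ _

@[simp] theorem redE_t (f : R →+* S) : redE f t = t := lift_t _ _ _

end HNN

section Arith

/-- A pair of integers which is not a multiple of `(a, b)` is not one modulo some `n`. -/
theorem exists_mod (a b c d : ℤ) (h : ¬ ∃ k : ℤ, c = k * a ∧ d = k * b) :
    ∃ n : ℕ, 0 < n ∧ ¬ ∃ k : ℤ, (n : ℤ) ∣ c - k * a ∧ (n : ℤ) ∣ d - k * b := by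
  by_cases hdet : c * b - d * a = 0
  · by_cases hab : a = 0 ∧ b = 0
    · obtain ⟨rfl, rfl⟩ := hab
      refine ⟨c.natAbs + d.natAbs + 1, by omega, ?_⟩
      rintro ⟨k, h1, h2⟩
      rw [mul_zero, sub_zero] at h1 h2
      have h3 : c = 0 :=
        Int.eq_zero_of_abs_lt_dvd h1 (by rw [Int.abs_eq_natAbs]; omega)
      have h4 : d = 0 :=
        Int.eq_zero_of_abs_lt_dvd h2 (by rw [Int.abs_eq_natAbs]; omega)
      exact h ⟨0, by simp [h3], by simp [h4]⟩
    · have hg : 0 < Int.gcd a b := Int.gcd_pos_iff.mpr (by tauto)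
      refine ⟨Int.gcd a b, hg, ?_⟩
      rintro ⟨k, h1, h2⟩
      obtain ⟨a', ha'⟩ : (Int.gcd a b : ℤ) ∣ a := Int.gcd_dvd_left ..
      obtain ⟨b', hb'⟩ : (Int.gcd a b : ℤ) ∣ b := Int.gcd_dvd_right ..
      have hbz := Int.gcd_eq_gcd_ab a b
      set g : ℤ := (Int.gcd a b : ℤ) with hgdef
      set r := Int.gcdA a b
      set s := Int.gcdB a b
      have hg0 : g ≠ 0 := by omega
      have hrs : r * a' + s * b' = 1 := by
        have : g * (r * a' + s * b') = g * 1 := by
          rw [mul_one]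
          calc g * (r * a' + s * b') = (g * a') * r + (g * b') * s := by ring
            _ = a * r + b * s := by rw [← ha', ← hb']
            _ = g := hbz.symm
        exact mul_left_cancel₀ hg0 this
      have hdet' : c * b' = d * a' := by
        have : g * (c * b') = g * (d * a') := by
          calc g * (c * b') = c * (g * b') := by ring
            _ = c * b := by rw [← hb']
            _ = d * a := by linarith
            _ = d * (g * a') := by rw [← ha']
            _ = g * (d * a') := by ring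
        exact mul_left_cancel₀ hg0 this
      set m := r * c + s * d with hm
      have hc : m * a' = c := by
        calc m * a' = r * a' * c + s * (d * a') := by rw [hm]; ring
          _ = r * a' * c + s * (c * b') := by rw [hdet']
          _ = (r * a' + s * b') * c := by ring
          _ = c := by rw [hrs, one_mul]
      have hd : m * b' = d := by
        calc m * b' = r * (c * b') + s * b' * d := by rw [hm]; ring
          _ = r * (d * a') + s * b' * d := by rw [hdet']
          _ = (r * a' + s * b') * d := by ring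
          _ = d := by rw [hrs, one_mul]
      have h3 : g ∣ c := by
        have := dvd_add h1 (show g ∣ k * a from Dvd.dvd.mul_left (by rw [ha']; exact Dvd.intro _ rfl) k)
        rwa [sub_add_cancel] at this
      have h4 : g ∣ d := by
        have := dvd_add h2 (show g ∣ k * b from Dvd.dvd.mul_left (by rw [hb']; exact Dvd.intro _ rfl) k)
        rwa [sub_add_cancel] at this
      have h5 : g ∣ m := by
        rw [hm]
        exact dvd_add (Dvd.dvd.mul_left h3 r) (Dvd.dvd.mul_left h4 s)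
      obtain ⟨j, hj⟩ := h5
      apply h
      refine ⟨j, ?_, ?_⟩
      · rw [← hc, hj, ha']; ring
      · rw [← hd, hj, hb']; ring
  · refine ⟨(c * b - d * a).natAbs + 1, by omega, ?_⟩
    rintro ⟨k, h1, h2⟩
    have h3 : (((c * b - d * a).natAbs + 1 : ℕ) : ℤ) ∣ c * b - d * a := by
      have := dvd_sub (Dvd.dvd.mul_right h1 b) (Dvd.dvd.mul_right h2 a)
      rwa [show (c - k * a) * b - (d - k * b) * a = c * b - d * a from by ring] at this
    exact hdet (Int.eq_zero_of_abs_lt_dvd h3 (by rw [Int.abs_eq_natAbs]; omega))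

end Arith

section Quot

/-- Reduction modulo `n`. -/
abbrev rd (n : ℕ) : W ℤ →* W (ZMod n) := red (Int.castRingHom (ZMod n))

theorem rd_eq_one_iff (n : ℕ) (w : W ℤ) : rd n w = 1 ↔ (n : ℤ) ∣ w.x ∧ (n : ℤ) ∣ w.y ∧ w.s = false := by
  rw [red_apply, one_def, W.mk.injEq, eq_intCast, eq_intCast, ZMod.intCast_zmod_eq_zero_iff_dvd,
    ZMod.intCast_zmod_eq_zero_iff_dvd]

theorem rd_factor {n m : ℕ} (h : n ∣ m) (w : W ℤ) :
    rd n w = red (ZMod.castHom h (ZMod n)) (rd m w) := by
  rw [red_apply, red_apply, red_apply]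
  simp

/-- Separability of cyclic groups of translations, uniformly. -/
theorem exists_rd (y : W ℤ) (hy : y.s = false) (x : W ℤ) (hx : x ∉ Subgroup.zpowers y) :
    ∃ n : ℕ, 0 < n ∧ ∀ m : ℕ, n ∣ m → rd m x ∉ Subgroup.zpowers (rd m y) := by
  obtain ⟨a, b, s⟩ := y
  simp only at hy
  subst hy
  obtain ⟨c, d, s⟩ := x
  have e : ∀ k : ℤ, (⟨a, b, false⟩ : W ℤ) ^ k = ⟨k * a, k * b, false⟩ := fun k => tr_zpow a b k
  have e' : ∀ (n : ℕ) (k : ℤ), (⟨a, b, false⟩ : W (ZMod n)) ^ k = ⟨k * a, k * b, false⟩ :=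
    fun n k => tr_zpow _ _ k
  cases s with
  | true =>
    refine ⟨1, one_pos, fun m _ => ?_⟩
    rintro ⟨k, hk⟩
    have hk' : (rd m ⟨a, b, false⟩) ^ k = rd m ⟨c, d, true⟩ := hk
    rw [← map_zpow, e] at hk'
    have := congrArg W.s hk'
    simp [red_apply] at this
  | false =>
    have h : ¬ ∃ k : ℤ, c = k * a ∧ d = k * b := by
      rintro ⟨k, h1, h2⟩
      apply hx
      refine ⟨k, ?_⟩
      change (⟨a, b, false⟩ : W ℤ) ^ k = ⟨c, d, false⟩
      rw [e, h1, h2]
    obtain ⟨n, hn, h1⟩ := exists_mod a b c d h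
    refine ⟨n, hn, fun m hm => ?_⟩
    rintro ⟨k, hk⟩
    have hk' : (rd m ⟨a, b, false⟩) ^ k = rd m ⟨c, d, false⟩ := hk
    have hk2 : rd n ((⟨c, d, false⟩ : W ℤ) * (⟨a, b, false⟩ ^ k)⁻¹) = 1 := by
      rw [rd_factor hm, map_mul, map_inv, map_zpow, hk', mul_inv_cancel, map_one]
    rw [rd_eq_one_iff] at hk2
    apply h1
    refine ⟨k, ?_, ?_⟩
    · have := hk2.1
      rw [e] at this
      simpa [mul_def, inv_def, sub_eq_add_neg] using this
    · have := hk2.2.1
      rw [e] at this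
      simpa [mul_def, inv_def, sub_eq_add_neg] using this

/-- The finite quotient. -/
def fq (n : ℕ) [NeZero n] : FQ (W ℤ) := ⟨W (ZMod n), rd n⟩

theorem sep_W (y : W ℤ) (hy : y.s = false) : Sep (W ℤ) y := by
  intro x hx
  obtain ⟨n, hn, h⟩ := exists_rd y hy x hx
  have : NeZero n := ⟨hn.ne'⟩
  exact ⟨fq n, h n dvd_rfl⟩

theorem rf_W : RF (W ℤ) := by
  intro x hx
  have h1 : x ∉ Subgroup.zpowers (1 : W ℤ) := by
    rw [Subgroup.zpowers_one_eq_bot, Subgroup.mem_bot]; exact hx
  obtain ⟨q, hq⟩ := sep_W 1 rfl x h1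
  refine ⟨q, fun h => hq ?_⟩
  rw [h]; exact one_mem _

theorem align_W (q : FQ (W ℤ)) : ∃ r : FQ (W ℤ), r.φ.ker ≤ q.φ.ker ∧
    orderOf (r.φ uu) = orderOf (r.φ vv) := by
  have : NeZero (Nat.card q.Q) := ⟨Nat.card_pos.ne'⟩
  refine ⟨fq (Nat.card q.Q), ?_, ?_⟩
  · intro x hx
    have hx' : rd (Nat.card q.Q) x = 1 := MonoidHom.mem_ker.mp hx
    rw [rd_eq_one_iff] at hx'
    obtain ⟨⟨a, ha⟩, ⟨b, hb⟩, hs⟩ := hx'
    have h1 : x = tr a b ^ (Nat.card q.Q) := by
      rw [tr_pow]
      exact W.ext ha hb hs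
    rw [MonoidHom.mem_ker, h1, map_pow, pow_card_eq_one']
  · exact (congrArg orderOf (red_uu _)).trans (order_eq.trans (congrArg orderOf (red_vv _)).symm)

theorem rf_E : RF (E ℤ) := (hnn_rf uu vv (phi ℤ) (phi_uu ℤ) rf_W (sep_W _ rfl) (sep_W _ rfl) align_W).1

theorem sep_of (y : W ℤ) (hy : y.s = false) : Sep (E ℤ) (of y) :=
  (hnn_rf uu vv (phi ℤ) (phi_uu ℤ) rf_W (sep_W _ rfl) (sep_W _ rfl) align_W).2 y (sep_W y hy)

end Quot

end Pool.Agent.V5helper35.VRC
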