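import Mathlib
import Pool.Agent.V5helper35.VRC.Base

set_option autoImplicit false

/-! Separability of the cyclic subgroups generated by hyperbolic elements. -/

namespace Pool.Agent.V5helper35.VRC

open HNNExtension Pool.CS W Pool.Agent.Helper270.Tree Pool.Agent.Helper270.HNN

/-- Reduction modulo `n` of the HNN extension. -/
noncomputable abbrev rE (n : ℕ) : E ℤ →* E (ZMod n) := redE (Int.castRingHom (ZMod n))

/-- Reduction modulo `n` of the vertices. -/
noncomputable def rv (n : ℕ) (v : Vert (phi ℤ)) : Vert (phi (ZMod n)) := vt (rE n v.out)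

theorem rv_vt (n : ℕ) (g : E ℤ) : rv n (vt g) = vt (rE n g) := by
  have h : vt (φ := phi ℤ) (vt g).out = vt g := Quotient.out_eq _
  obtain ⟨x, hx⟩ := vt_eq_iff.mp h
  rw [rv]
  conv_rhs => rw [← hx]
  rw [map_mul, redE_of, vt_mul_of]

theorem rv_smul (n : ℕ) (g : E ℤ) (v : Vert (phi ℤ)) : rv n (g • v) = rE n g • rv n v := by
  obtain ⟨h, rfl⟩ := exists_vt v
  rw [smul_vt, rv_vt, rv_vt, smul_vt, map_mul]

theorem rv_adj (n : ℕ) {v w : Vert (phi ℤ)} (h : (graph (phi ℤ)).Adj v w) :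
    (graph (phi (ZMod n))).Adj (rv n v) (rv n w) := by
  obtain ⟨k, ⟨rfl, rfl⟩ | ⟨rfl, rfl⟩⟩ := adj_iff.mp h
  · rw [rv_vt, rv_vt, map_mul, redE_t]; exact adj_vt _
  · rw [rv_vt, rv_vt, map_mul, redE_t]; exact (adj_vt _).symm

/-- The neighbours of a vertex. -/
theorem adj_form {R : Type} [CommRing R] {g : E R} {v : Vert (phi R)}
    (h : (graph (phi R)).Adj (vt g) v) :
    ∃ x : W R, v = vt (g * of x * t) ∨ v = vt (g * of x * t⁻¹) := by
  obtain ⟨k, ⟨h1, rfl⟩ | ⟨rfl, h1⟩⟩ := adj_iff.mp h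
  · obtain ⟨x, hx⟩ := vt_eq_iff.mp h1
    exact ⟨x, Or.inl (by rw [hx])⟩
  · obtain ⟨x, hx⟩ := vt_eq_iff.mp h1
    exact ⟨x, Or.inr (by rw [hx, mul_inv_cancel_right])⟩

theorem vt_t_iff {R : Type} [CommRing R] (g : E R) (x y : W R) :
    vt (φ := phi R) (g * of x * t) = vt (g * of y * t) ↔ x⁻¹ * y ∈ Subgroup.zpowers (vv : W R) := by
  rw [← conj_t (φ := phi R), vt_eq_iff]
  refine exists_congr fun z => ?_
  rw [map_mul, map_inv]
  constructor
  · intro h
    have : (of z : E R) = (g * of x * t)⁻¹ * (g * of y * t) := by rw [← h]; group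
    rw [this]; group
  · intro h
    rw [← h]; group

theorem vt_t_inv_iff {R : Type} [CommRing R] (g : E R) (x y : W R) :
    vt (φ := phi R) (g * of x * t⁻¹) = vt (g * of y * t⁻¹) ↔
      x⁻¹ * y ∈ Subgroup.zpowers (uu : W R) := by
  rw [← conj_t_inv (φ := phi R), vt_eq_iff]
  refine exists_congr fun z => ?_
  rw [map_mul, map_inv]
  constructor
  · intro h
    have : (of z : E R) = (g * of x * t⁻¹)⁻¹ * (g * of y * t⁻¹) := by rw [← h]; group
    rw [this]; group
  · intro h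
    rw [← h]; group

theorem vt_ne_vt {R : Type} [CommRing R] (g : E R) (x y : W R) :
    vt (φ := phi R) (g * of x * t) ≠ vt (g * of y * t⁻¹) := by
  intro h
  have := congrArg lvl h
  rw [lvl_vt, lvl_vt] at this
  simp only [map_mul, map_inv, expo_of, expo_t] at this
  have h2 := congrArg Multiplicative.toAdd this
  simp only [toAdd_mul, toAdd_one, toAdd_ofAdd, toAdd_inv] at h2
  omega

/-- Two neighbours of a vertex stay different modulo some `n`. -/
theorem local_inj {u v w : Vert (phi ℤ)} (h1 : (graph (phi ℤ)).Adj u v)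
    (h2 : (graph (phi ℤ)).Adj u w) (hvw : v ≠ w) :
    ∃ n : ℕ, 0 < n ∧ ∀ m : ℕ, n ∣ m → rv m v ≠ rv m w := by
  obtain ⟨g, rfl⟩ := exists_vt u
  obtain ⟨x, rfl | rfl⟩ := adj_form h1 <;> obtain ⟨y, rfl | rfl⟩ := adj_form h2
  · rw [Ne, vt_t_iff] at hvw
    obtain ⟨n, hn, h⟩ := exists_rd vv rfl _ hvw
    refine ⟨n, hn, fun m hm => ?_⟩
    have h3 := h m hm
    rw [rv_vt, rv_vt, map_mul, map_mul, map_mul, map_mul, redE_of, redE_of, redE_t, Ne, vt_t_iff]
    rwa [red_vv, map_mul, map_inv] at h3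
  · refine ⟨1, one_pos, fun m _ => ?_⟩
    rw [rv_vt, rv_vt, map_mul, map_mul, map_mul, map_mul, redE_of, redE_of, map_inv, redE_t]
    exact vt_ne_vt _ _ _
  · refine ⟨1, one_pos, fun m _ => ?_⟩
    rw [rv_vt, rv_vt, map_mul, map_mul, map_mul, map_mul, redE_of, redE_of, map_inv, redE_t]
    exact (vt_ne_vt _ _ _).symm
  · rw [Ne, vt_t_inv_iff] at hvw
    obtain ⟨n, hn, h⟩ := exists_rd uu rfl _ hvw
    refine ⟨n, hn, fun m hm => ?_⟩
    have h3 := h m hm
    rw [rv_vt, rv_vt, map_mul, map_mul, map_mul, map_mul, redE_of, redE_of, map_inv, redE_t, Ne,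
      vt_t_inv_iff]
    rwa [red_uu, map_mul, map_inv] at h3

/-- A hyperbolic element stays of infinite order modulo some `n`. -/
theorem exists_infinite {g : E ℤ} (hg : ∀ v : Vert (phi ℤ), g • v ≠ v) :
    ∃ n : ℕ, 0 < n ∧ ¬ IsOfFinOrder (rE n g) := by
  obtain ⟨L, l, hax⟩ := (treeAct (φ := phi ℤ)).exists_axis hg
  have hnb : ∀ i : ℤ, ∃ n : ℕ, 0 < n ∧ ∀ m : ℕ, n ∣ m → rv m (L i) ≠ rv m (L (i + 2)) := by
    intro i
    refine local_inj (hax.line.adj i).symm ?_ (hax.line.nb i)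
    have := hax.line.adj (i + 1)
    rwa [show i + 1 + 1 = i + 2 from by ring] at this
  choose n hn0 hn using hnb
  let N : ℕ := ∏ i ∈ Finset.range l, n i
  have hN : 0 < N := Finset.prod_pos fun i _ => hn0 i
  refine ⟨N, hN, ?_⟩
  have hline : IsLine (graph (phi (ZMod N))) (fun i => rv N (L i)) := by
    constructor
    · intro i
      exact rv_adj N (hax.line.adj i)
    · intro i
      have hl : (0 : ℤ) < l := by exact_mod_cast hax.pos
      obtain ⟨r, k, hr, hrk⟩ : ∃ (r : ℕ) (k : ℤ), r < l ∧ i = r + k * l := by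
        refine ⟨(i % l).toNat, i / l, ?_, ?_⟩
        · have := Int.emod_lt_of_pos i hl
          have := Int.emod_nonneg i hl.ne'
          omega
        · have := Int.emod_nonneg i hl.ne'
          rw [Int.toNat_of_nonneg this, mul_comm]
          exact (Int.emod_add_mul_ediv i l).symm
      have h1 : n r ∣ N := Finset.dvd_prod_of_mem (fun i : ℕ => n i) (Finset.mem_range.mpr hr)
      have h2 := hn r N h1
      have e1 : L i = g ^ k • L r := by rw [hax.smul_zpow, hrk]
      have e2 : L (i + 2) = g ^ k • L (r + 2) := by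
        rw [hax.smul_zpow, hrk]; congr 1; ring
      change rv N (L i) ≠ rv N (L (i + 2))
      rw [e1, e2, rv_smul, rv_smul]
      exact fun h => h2 (MulAction.injective _ h)
  have hax' : IsAxis (graph (phi (ZMod N))) (rE N g) (fun i => rv N (L i)) l :=
    ⟨hline, hax.pos, fun i => by rw [← rv_smul, hax.smul]⟩
  rw [isOfFinOrder_iff_zpow_eq_one]
  rintro ⟨k, hk, h⟩
  have h1 := hax'.smul_zpow k 0
  rw [h, one_smul] at h1
  have h2 := hline.injective isTree h1
  have h3 : (l : ℤ) ≠ 0 := by exact_mod_cast hax.pos.ne'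
  have : k * (l : ℤ) = 0 := by omega
  rcases mul_eq_zero.mp this with h4 | h4
  · exact hk h4
  · exact h3 h4

theorem sep_hyperbolic {g : E ℤ} (hg : ∀ v : Vert (phi ℤ), g • v ≠ v) : Sep (E ℤ) g := by
  obtain ⟨n, hn, h⟩ := exists_infinite hg
  have : NeZero n := ⟨hn.ne'⟩
  have hpow : ∀ N : ℕ, 0 < N → Sep (E (ZMod n)) ((rE n g) ^ N) := by
    intro N hN
    apply sep_of_infinite
    intro h1
    apply h
    rw [isOfFinOrder_iff_pow_eq_one] at h1 ⊢
    obtain ⟨k, hk, h2⟩ := h1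
    exact ⟨N * k, Nat.mul_pos hN hk, by rw [pow_mul]; exact h2⟩
  refine sep_lift (rE n) g rf_E (sep_of_infinite _ h) ?_
  exact exists_dvd_order _ h hpow

theorem sep_conj {P : Type} [Group P] {y : P} (h : Sep P y) (k : P) : Sep P (k * y * k⁻¹) := by
  intro x hx
  have h1 : k⁻¹ * x * k ∉ Subgroup.zpowers y := by
    rintro ⟨j, hj⟩
    apply hx
    refine ⟨j, ?_⟩
    have hj' : y ^ j = k⁻¹ * x * k := hj
    change (k * y * k⁻¹) ^ j = x
    rw [conj_zpow, hj']; group
  obtain ⟨q, hq⟩ := h _ h1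
  refine ⟨q, ?_⟩
  rintro ⟨j, hj⟩
  apply hq
  refine ⟨j, ?_⟩
  have hj' : (q.φ (k * y * k⁻¹)) ^ j = q.φ x := hj
  change (q.φ y) ^ j = q.φ (k⁻¹ * x * k)
  rw [map_mul, map_mul, ← hj', map_mul, map_mul, map_inv, conj_zpow]
  group

/-- The parity homomorphism. -/
noncomputable def pty : E ℤ →* Multiplicative (ZMod 2) :=
  lift { toFun := fun w => Multiplicative.ofAdd (bif w.s then 1 else 0)
         map_one' := rfl
         map_mul' := fun p q => by
          rcases p with ⟨a, b, s⟩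
          rcases q with ⟨c, d, s'⟩
          cases s <;> cases s' <;> first
            | rfl
            | exact congrArg Multiplicative.ofAdd (by decide : (0 : ZMod 2) = 1 + 1) } 1 (by
    rintro ⟨a, k, rfl⟩
    have h1 : ∀ x y : ℤ, ((tr x y : W ℤ) ^ k).s = false := fun x y => by rw [tr_zpow]; rfl
    have h2 : (phi ℤ ⟨(fun x => (uu : W ℤ) ^ x) k, ⟨k, rfl⟩⟩ : W ℤ) = vv ^ k := by
      have : (⟨(fun x => (uu : W ℤ) ^ x) k, ⟨k, rfl⟩⟩ : Subgroup.zpowers (uu : W ℤ)) =
        ⟨uu, Subgroup.mem_zpowers _⟩ ^ k := rfl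
      rw [this, map_zpow, phi_uu]; rfl
    rw [one_mul, mul_one, h2]
    change Multiplicative.ofAdd (bif ((uu : W ℤ) ^ k).s then (1 : ZMod 2) else 0) =
      Multiplicative.ofAdd (bif ((vv : W ℤ) ^ k).s then 1 else 0)
    rw [uu, vv, h1, h1])

theorem pty_of (w : W ℤ) : pty (of w) = Multiplicative.ofAdd (bif w.s then 1 else 0) :=
  lift_of _ _ _ _

theorem pty_t : pty t = 1 := lift_t _ _ _

theorem pty_of_eq_one {w : W ℤ} : pty (of w) = 1 ↔ w.s = false := by
  rw [pty_of]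
  rcases w with ⟨a, b, s⟩
  cases s
  · simp
  · simp only [cond_true, Bool.true_eq_false, iff_false]
    intro h
    have := congrArg Multiplicative.toAdd h
    simp at this

theorem sep_all (g : E ℤ) (hg : pty g = 1) : Sep (E ℤ) g := by
  by_cases h : ∀ v : Vert (phi ℤ), g • v ≠ v
  · exact sep_hyperbolic h
  · push Not at h
    obtain ⟨v, hv⟩ := h
    obtain ⟨k, rfl⟩ := exists_vt v
    rw [smul_vt, eq_comm, vt_eq_iff] at hv
    obtain ⟨x, hx⟩ := hv
    have h1 : g = k * of x * k⁻¹ := by rw [hx]; group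
    have h2 : x.s = false := by
      rw [h1, map_mul, map_mul, map_inv, mul_comm (pty k), mul_inv_cancel_right] at hg
      exact pty_of_eq_one.mp hg
    rw [h1]
    exact sep_conj (sep_of x h2) k

end Pool.Agent.V5helper35.VRC
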