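import Mathlib
import Pool.Agent.V5helper35.VRC.TreeSep

set_option autoImplicit false

/-! The averaging argument. -/

namespace Pool.Agent.V5helper35.VRC

/-- If `a` and `b` commute, `b` is conjugate to `a ^ 3 * b` and `a` is conjugate to `a * b ^ 3`,
then a homomorphism from a subgroup of finite index to the integers kills the powers of `a`. -/
theorem no_hom {G : Type} [Group G] (a b t u : G) (hab : a * b = b * a)
    (ht : t * b * t⁻¹ = a ^ 3 * b) (hu : u * a * u⁻¹ = a * b ^ 3)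
    (K : Subgroup G) (hK : K.FiniteIndex) (ψ : K →* Multiplicative ℤ) (haK : a ∈ K) :
    ψ ⟨a, haK⟩ = 1 := by
  classical
  let N : Subgroup G := K.normalCore
  have hN : N ≤ K := K.normalCore_le
  have hNf : N.FiniteIndex := inferInstance
  have hNn : N.Normal := inferInstance
  let m : ℕ := N.index
  have hm : m ≠ 0 := hNf.index_ne_zero
  have hpow : ∀ x : G, x ^ m ∈ N := fun x => Subgroup.pow_index_mem N x
  have hconj : ∀ g x : G, g⁻¹ * x ^ m * g ∈ K := fun g x => hN (by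
    have := hNn.conj_mem (x ^ m) (hpow x) g⁻¹
    rwa [inv_inv] at this)
  have : Finite (G ⧸ K) := Subgroup.finite_quotient_of_finiteIndex
  have := Fintype.ofFinite (G ⧸ K)
  -- the function
  let F0 : G → G → ℤ := fun x g => Multiplicative.toAdd (ψ ⟨g⁻¹ * x ^ m * g, hconj g x⟩)
  have hF0 : ∀ (x g : G) (k : G), k ∈ K → F0 x (g * k) = F0 x g := by
    intro x g k hk
    have h1 : (⟨(g * k)⁻¹ * x ^ m * (g * k), hconj (g * k) x⟩ : K) =
        ⟨k, hk⟩⁻¹ * ⟨g⁻¹ * x ^ m * g, hconj g x⟩ * ⟨k, hk⟩ := by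
      apply Subtype.ext
      change (g * k)⁻¹ * x ^ m * (g * k) = k⁻¹ * (g⁻¹ * x ^ m * g) * k
      group
    change Multiplicative.toAdd (ψ ⟨(g * k)⁻¹ * x ^ m * (g * k), hconj (g * k) x⟩) = _
    rw [h1, ψ.map_mul, ψ.map_mul, ψ.map_inv, mul_comm (ψ ⟨k, hk⟩)⁻¹, inv_mul_cancel_right]
  let F : G → G ⧸ K → ℤ := fun x q => F0 x q.out
  have hF : ∀ (x g : G), F x (g : G ⧸ K) = F0 x g := by
    intro x g
    obtain ⟨k, hk⟩ := QuotientGroup.mk_out_eq_mul K g
    change F0 x (g : G ⧸ K).out = F0 x g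
    rw [hk, hF0 x g k k.2]
  -- conjugation acts by translation
  have hFc : ∀ (h x : G) (q : G ⧸ K), F (h * x * h⁻¹) q = F x (h⁻¹ • q) := by
    intro h x q
    obtain ⟨g, rfl⟩ := QuotientGroup.mk_surjective q
    have h1 : h⁻¹ • (g : G ⧸ K) = ((h⁻¹ * g : G) : G ⧸ K) := rfl
    rw [h1, hF, hF]
    change Multiplicative.toAdd (ψ _) = Multiplicative.toAdd (ψ _)
    congr 3
    rw [conj_pow]
    group
  have hFa : ∀ (x y : G), x * y = y * x → ∀ q : G ⧸ K, F (x * y) q = F x q + F y q := by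
    intro x y hxy q
    obtain ⟨g, rfl⟩ := QuotientGroup.mk_surjective q
    rw [hF, hF, hF]
    change Multiplicative.toAdd (ψ _) = Multiplicative.toAdd (ψ _) + Multiplicative.toAdd (ψ _)
    rw [← toAdd_mul, ← map_mul]
    congr 2
    apply Subtype.ext
    change g⁻¹ * (x * y) ^ m * g = (g⁻¹ * x ^ m * g) * (g⁻¹ * y ^ m * g)
    rw [(show Commute x y from hxy).mul_pow]
    group
  have hsum : ∀ h x : G, ∑ q, (F (h * x * h⁻¹) q) ^ 2 = ∑ q, (F x q) ^ 2 := by
    intro h x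
    simp only [hFc]
    exact Fintype.sum_equiv (MulAction.toPerm h⁻¹) _ _ (fun q => rfl)
  have hc : Commute a b := hab
  have ha3 : ∀ q, F (a ^ 3 * b) q = 3 * F a q + F b q := by
    intro q
    rw [hFa _ _ (hc.pow_left 3).eq, pow_three,
      hFa a (a * a) (mul_assoc a a a).symm, hFa a a rfl]
    ring
  have hb3 : ∀ q, F (a * b ^ 3) q = F a q + 3 * F b q := by
    intro q
    rw [hFa _ _ (hc.pow_right 3).eq, pow_three,
      hFa b (b * b) (mul_assoc b b b).symm, hFa b b rfl]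
    ring
  have e1 := hsum t b
  rw [ht] at e1
  have e2 := hsum u a
  rw [hu] at e2
  simp only [ha3] at e1
  simp only [hb3] at e2
  have e3 : ∑ q, ((3 * F a q + 2 * F b q) ^ 2 + 5 * (F b q) ^ 2) = 0 := by
    have h1 : ∑ q, ((3 * F a q + F b q) ^ 2 - (F b q) ^ 2) = 0 := by
      rw [Finset.sum_sub_distrib, e1, sub_self]
    have h2 : ∑ q, ((F a q + 3 * F b q) ^ 2 - (F a q) ^ 2) = 0 := by
      rw [Finset.sum_sub_distrib, e2, sub_self]
    have h3 : ∑ q, (((3 * F a q + F b q) ^ 2 - (F b q) ^ 2) +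
        ((F a q + 3 * F b q) ^ 2 - (F a q) ^ 2)) = 0 := by
      rw [Finset.sum_add_distrib, h1, h2, add_zero]
    rw [← h3]
    apply Finset.sum_congr rfl
    intro q _
    ring
  have e4 : ∀ q, F a q = 0 := by
    intro q
    have h1 := (Finset.sum_eq_zero_iff_of_nonneg (fun q _ => by positivity)).mp e3 q
      (Finset.mem_univ q)
    have p1 := sq_nonneg (F b q)
    have p2 := sq_nonneg (3 * F a q + 2 * F b q)
    have h2 : (3 * F a q + 2 * F b q) ^ 2 = 0 := by linarith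
    have h3 : (F b q) ^ 2 = 0 := by linarith
    have h4 : F b q = 0 := by simpa using h3
    have h5 : 3 * F a q + 2 * F b q = 0 := by simpa using h2
    omega
  have e5 := e4 ((1 : G) : G ⧸ K)
  rw [hF] at e5
  have e6 : (⟨(1 : G)⁻¹ * a ^ m * 1, hconj 1 a⟩ : K) = ⟨a, haK⟩ ^ m := by
    apply Subtype.ext
    change (1 : G)⁻¹ * a ^ m * 1 = a ^ m
    simp
  change Multiplicative.toAdd (ψ ⟨(1 : G)⁻¹ * a ^ m * 1, hconj 1 a⟩) = 0 at e5
  rw [e6, map_pow, toAdd_pow, smul_eq_zero] at e5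
  rcases e5 with h | h
  · exact absurd h hm
  · exact h

end Pool.Agent.V5helper35.VRC
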